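import Mathlib

namespace Pool.Agent.LibFsep

open Set Topology Filter
open scoped Cardinal

universe u

/-- `Cp X`: the continuous real functions on `X` with the topology of pointwise convergence
(a subspace of the product `X → ℝ`). -/
abbrev Cp (X : Type u) [TopologicalSpace X] : Type u := {f : X → ℝ // Continuous f}

/-- The `F`-closure: the points `y` of the closure of `A` such that for every `A' ⊆ A` with `y` in the
closure of `A'`, some sequence of points of `A'` converges to `y`. -/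
def FClosure {Y : Type u} [TopologicalSpace Y] (A : Set Y) : Set Y :=
  {y | y ∈ closure A ∧ ∀ A' : Set Y, A' ⊆ A → y ∈ closure A' →
    ∃ s : ℕ → Y, (∀ n, s n ∈ A') ∧ Tendsto s atTop (𝓝 y)}

/-- `Y` has a countable `F`-dense subset. -/
def FSeparable (Y : Type u) [TopologicalSpace Y] : Prop :=
  ∃ A : Set Y, A.Countable ∧ FClosure A = univ

/-- A family of functions not dominated (modulo finite sets) by a single function. -/
def UnboundedFam (F : Set (ℕ → ℕ)) : Prop :=
  ∀ g : ℕ → ℕ, ∃ f ∈ F, ¬ ∀ᶠ n in atTop, f n ≤ g n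

/-- The bounding number. -/
noncomputable def bounding : Cardinal.{0} :=
  sInf {κ | ∃ F : Set (ℕ → ℕ), UnboundedFam F ∧ #F = κ}

/-- Strong measure zero sets of reals. -/
def StrongMeasureZero (S : Set ℝ) : Prop :=
  ∀ ε : ℕ → ℝ, (∀ n, 0 < ε n) → ∃ c : ℕ → ℝ, S ⊆ ⋃ n, Ioo (c n) (c n + ε n)

theorem bounded_of_lt {ι : Type u} (h : #ι < Cardinal.lift.{u} bounding) (l : ι → ℕ → ℕ) :
    ∃ g : ℕ → ℕ, ∀ i, ∀ᶠ n in atTop, l i n ≤ g n := by
  by_contra hc
  push Not at hc
  have hU : UnboundedFam (range l) := by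
    intro g
    obtain ⟨i, hi⟩ := hc g
    refine ⟨l i, ⟨i, rfl⟩, ?_⟩
    rw [Filter.not_eventually]
    refine hi.mono fun n hn => ?_
    exact not_le.2 hn
  have h1 : bounding ≤ #(range l) := csInf_le' ⟨range l, hU, rfl⟩
  have h2 : Cardinal.lift.{u} #(range l) ≤ #ι := by
    simpa using Cardinal.mk_range_le_lift (f := l)
  have h3 : Cardinal.lift.{u} bounding ≤ Cardinal.lift.{u} #(range l) := Cardinal.lift_le.2 h1
  exact absurd (h3.trans h2) (not_le.2 h)

theorem mem_closure_Cp {X : Type u} [TopologicalSpace X] (A : Set (Cp X)) (f : Cp X) :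
    f ∈ closure A ↔ ∀ (F : Finset X) (ε : ℝ), 0 < ε → ∃ g ∈ A, ∀ x ∈ F, |g.1 x - f.1 x| < ε := by
  constructor
  · intro h F ε hε
    rw [mem_closure_iff] at h
    have hopen : IsOpen {g : Cp X | ∀ x ∈ F, |g.1 x - f.1 x| < ε} := by
      have : {g : Cp X | ∀ x ∈ F, |g.1 x - f.1 x| < ε} =
          ⋂ x ∈ F, {g : Cp X | |g.1 x - f.1 x| < ε} := by
        ext g; simp
      rw [this]
      refine isOpen_biInter_finset fun x _ => ?_
      refine isOpen_lt ?_ continuous_const
      exact continuous_abs.comp (((continuous_apply x).comp continuous_subtype_val).sub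
        continuous_const)
    obtain ⟨g, hg, hgA⟩ := h _ hopen (by intro x _; simpa using hε)
    exact ⟨g, hgA, hg⟩
  · intro h
    rw [closure_subtype, mem_closure_iff_nhds]
    intro t ht
    rw [nhds_pi, Filter.mem_pi] at ht
    obtain ⟨I, hI, t', ht', hsub⟩ := ht
    have : ∀ x, ∃ ε : ℝ, 0 < ε ∧ Metric.ball (f.1 x) ε ⊆ t' x := by
      intro x
      exact Metric.mem_nhds_iff.1 (ht' x)
    choose ε hε hball using this
    obtain ⟨δ, hδ, hδle⟩ : ∃ δ : ℝ, 0 < δ ∧ ∀ x ∈ I, δ ≤ ε x := by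
      rcases I.eq_empty_or_nonempty with hIe | hIn
      · exact ⟨1, one_pos, by simp [hIe]⟩
      · obtain ⟨x0, hx0, hmin⟩ := hI.exists_minimalFor ε I hIn
        refine ⟨ε x0, hε x0, fun x hx => ?_⟩
        by_contra hlt
        exact hlt (hmin hx (le_of_lt (not_le.1 hlt)))
    obtain ⟨g, hgA, hg⟩ := h hI.toFinset δ hδ
    refine ⟨g.1, hsub ?_, ⟨g, hgA, rfl⟩⟩
    intro x hx
    apply hball x
    rw [Metric.mem_ball, Real.dist_eq]
    exact (hg x (by simpa using hx)).trans_le (hδle x hx)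

theorem tendsto_Cp {X : Type u} [TopologicalSpace X] (s : ℕ → Cp X) (f : Cp X) :
    Tendsto s atTop (𝓝 f) ↔ ∀ x, Tendsto (fun n => (s n).1 x) atTop (𝓝 (f.1 x)) := by
  rw [tendsto_subtype_rng, tendsto_pi_nhds]

def zeroFn (X : Type u) [TopologicalSpace X] : Cp X := ⟨fun _ => 0, continuous_const⟩

theorem selection {X : Type u} [TopologicalSpace X] {D : Set (Cp X)} (hF : FClosure D = univ)
    {Y : Set X} (hY : #Y < Cardinal.lift.{u} bounding) (A : Set (Cp X)) (hA : A.Countable)
    (h0 : zeroFn X ∈ closure A) :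
    ∃ s : ℕ → Cp X, (∀ n, s n ∈ A) ∧
      ∀ y ∈ Y, Tendsto (fun n => (s n).1 y) atTop (𝓝 0) := by
  by_cases hz : zeroFn X ∈ A
  · exact ⟨fun _ => zeroFn X, fun _ => hz, fun y _ => tendsto_const_nhds⟩
  have hAne : A.Nonempty := by
    rw [← closure_nonempty_iff]; exact ⟨_, h0⟩
  obtain ⟨a, rfl⟩ := hA.exists_eq_range hAne
  have hDseq : ∀ f : Cp X, ∃ e : ℕ → Cp X, (∀ i, e i ∈ D) ∧ Tendsto e atTop (𝓝 f) := by
    intro f
    have hf : f ∈ FClosure D := by rw [hF]; trivial
    exact hf.2 D subset_rfl hf.1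
  choose e heD he using hDseq
  have hne : ∀ n, ∃ x, (a n).1 x ≠ 0 := by
    intro n
    by_contra hc
    push Not at hc
    apply hz
    refine ⟨n, ?_⟩
    ext x
    simpa [zeroFn] using hc x
  choose x0 hx0 using hne
  have hmod : ∀ (x : X) (n : ℕ) (ε : ℝ), 0 < ε → ∃ L : ℕ, ∀ i ≥ L,
      |(e (a n) i).1 x - (a n).1 x| < ε := by
    intro x n ε hε
    have := (tendsto_Cp _ _).1 (he (a n)) x
    rw [Metric.tendsto_atTop] at this
    simpa [Real.dist_eq] using this ε hε
  have hl : ∀ (y : Y) (n : ℕ), ∃ L : ℕ, ∀ i ≥ L,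
      |(e (a n) i).1 y.1 - (a n).1 y.1| < 1 / ((n : ℝ) + 1) :=
    fun y n => hmod y.1 n _ (by positivity)
  choose l hl using hl
  obtain ⟨g, hg⟩ := bounded_of_lt hY l
  have hk : ∀ n, ∃ L : ℕ, ∀ i ≥ L,
      |(e (a n) i).1 (x0 n) - (a n).1 (x0 n)| < |(a n).1 (x0 n)| / 2 :=
    fun n => hmod _ _ _ (by have := abs_pos.2 (hx0 n); positivity)
  choose k hk using hk
  set h : ℕ → ℕ := fun n => max (g n) (k n) with hh
  set B : Set (Cp X) := {d | ∃ n i, h n ≤ i ∧ d = e (a n) i} with hB
  have hBD : B ⊆ D := by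
    rintro d ⟨n, i, _, rfl⟩
    exact heD _ _
  have h0B : zeroFn X ∈ closure B := by
    rw [mem_closure_Cp] at h0 ⊢
    intro F ε hε
    obtain ⟨_, ⟨n, rfl⟩, hn⟩ := h0 F (ε / 2) (by positivity)
    have : ∀ x ∈ F, ∃ L : ℕ, ∀ i ≥ L, |(e (a n) i).1 x - (a n).1 x| < ε / 2 :=
      fun x _ => hmod x n _ (by positivity)
    choose! L hL using this
    refine ⟨e (a n) (max (h n) (F.sup L)), ⟨n, _, le_max_left _ _, rfl⟩, fun x hx => ?_⟩
    have h1 := hL x hx (max (h n) (F.sup L)) (le_trans (Finset.le_sup hx) (le_max_right _ _))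
    have h2 := hn x hx
    have h3 := abs_add_le ((e (a n) (max (h n) (F.sup L))).1 x - (a n).1 x)
      ((a n).1 x - (zeroFn X).1 x)
    rw [sub_add_sub_cancel] at h3
    linarith
  have hz0 : zeroFn X ∈ FClosure D := by rw [hF]; trivial
  obtain ⟨s, hsB, hs⟩ := hz0.2 B hBD h0B
  rw [tendsto_Cp] at hs
  choose m i him hsm using hsB
  have hmlim : Tendsto m atTop atTop := by
    rw [tendsto_atTop]
    intro N
    have hN : ∀ n < N, ∀ᶠ j in atTop, m j ≠ n := by
      intro n _
      have h1 := hs (x0 n)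
      have h2 : 0 < |(a n).1 (x0 n)| / 2 := by
        have := abs_pos.2 (hx0 n); positivity
      filter_upwards [(Metric.tendsto_nhds.1 h1) _ h2] with j hj hmj
      rw [Real.dist_eq] at hj
      have h3 := hk n (i j) (by
        have := him j
        rw [hmj] at this
        exact le_trans (le_max_right _ _) this)
      have h4 : (s j).1 (x0 n) = (e (a n) (i j)).1 (x0 n) := by rw [hsm j, hmj]
      rw [h4] at hj
      have h5 := abs_sub_abs_le_abs_sub ((a n).1 (x0 n)) ((e (a n) (i j)).1 (x0 n))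
      rw [abs_sub_comm] at h3
      simp [zeroFn] at hj
      linarith
    have : ∀ᶠ j in atTop, ∀ n ∈ Finset.range N, m j ≠ n := by
      rw [eventually_all_finset]
      intro n hn
      exact hN n (Finset.mem_range.1 hn)
    filter_upwards [this] with j hj
    by_contra hlt
    exact hj (m j) (Finset.mem_range.2 (not_le.1 hlt)) rfl
  refine ⟨fun j => a (m j), fun j => ⟨_, rfl⟩, fun y hy => ?_⟩
  have h1 := hs y
  have h2 : ∀ᶠ j in atTop, |(s j).1 y - (a (m j)).1 y| < 1 / ((m j : ℝ) + 1) := by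
    have := hmlim.eventually (hg ⟨y, hy⟩)
    filter_upwards [this] with j hj
    rw [hsm j]
    exact hl ⟨y, hy⟩ (m j) (i j) (hj.trans ((le_max_left _ _).trans (him j)))
  have h3 : Tendsto (fun j => 1 / ((m j : ℝ) + 1)) atTop (𝓝 0) :=
    tendsto_one_div_add_atTop_nhds_zero_nat.comp hmlim
  have h4 : Tendsto (fun j => (s j).1 y - (a (m j)).1 y) atTop (𝓝 0) := by
    refine squeeze_zero_norm' ?_ h3
    filter_upwards [h2] with j hj
    exact hj.le
  have h5 := h1.sub h4
  simpa [zeroFn] using h5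

theorem smz_image {X : Type u} [TopologicalSpace X] (hS : FSeparable (Cp X)) (Y : Set X)
    (hY : #Y < Cardinal.lift.{u} bounding) (φ : X → ℝ) (hφ : Continuous φ) :
    StrongMeasureZero (φ '' Y) := by
  obtain ⟨D, _, hF⟩ := hS
  intro ε hε
  rcases Y.eq_empty_or_nonempty with rfl | ⟨y0, hy0⟩
  · exact ⟨fun _ => 0, by simp⟩
  have hδex : ∀ m : ℕ, ∃ δ : ℝ, 0 < δ ∧ ∀ j : Fin (m + 1), 2 * δ ≤ ε (Nat.pair m j) := by
    intro m
    obtain ⟨j0, hj0⟩ := Finite.exists_min (fun j : Fin (m + 1) => ε (Nat.pair m j))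
    exact ⟨ε (Nat.pair m j0) / 2, by have := hε (Nat.pair m j0); positivity,
      fun j => by have := hj0 j; linarith⟩
  choose δ hδ hδle using hδex
  let a : (Σ m : ℕ, (Fin (m + 1) → ℚ)) → Cp X := fun p =>
    ⟨fun x => 1 / ((p.1 : ℝ) + 1) +
      Metric.infDist (φ x) (range fun j => ((p.2 j : ℚ) : ℝ)) / δ p.1,
      continuous_const.add (((Metric.continuous_infDist_pt _).comp hφ).div_const _)⟩
  have h0 : zeroFn X ∈ closure (range a) := by
    rw [mem_closure_Cp]
    intro F η hη
    obtain ⟨m0, hm0⟩ := exists_nat_one_div_lt (half_pos hη)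
    set m := max m0 F.card with hm
    have hmlt : 1 / ((m : ℝ) + 1) < η / 2 := by
      refine lt_of_le_of_lt ?_ hm0
      apply one_div_le_one_div_of_le (by positivity)
      have : (m0 : ℝ) ≤ m := by exact_mod_cast le_max_left _ _
      linarith
    have hq : ∀ x : X, ∃ q : ℚ, |φ x - q| < δ m * (η / 2) := by
      intro x
      obtain ⟨q, hq⟩ := exists_rat_near (φ x) (mul_pos (hδ m) (half_pos hη))
      exact ⟨q, hq⟩
    choose q hq using hq
    have hcard : F.card ≤ m + 1 := (le_max_right m0 F.card).trans (Nat.le_succ _)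
    let Q : Fin (m + 1) → ℚ := fun i =>
      if h : (i : ℕ) < F.card then q (F.equivFin.symm ⟨i, h⟩ : X) else 0
    refine ⟨a ⟨m, Q⟩, ⟨_, rfl⟩, fun x hx => ?_⟩
    have hQ : ∃ j, Q j = q x := by
      have hlt : ((F.equivFin ⟨x, hx⟩ : Fin F.card) : ℕ) < F.card := (F.equivFin ⟨x, hx⟩).2
      refine ⟨⟨(F.equivFin ⟨x, hx⟩ : Fin F.card), hlt.trans_le hcard⟩, ?_⟩
      simp only [Q]
      rw [dif_pos hlt]
      congr 1
      simp
    obtain ⟨j, hj⟩ := hQ
    have h1 : Metric.infDist (φ x) (range fun j => ((Q j : ℚ) : ℝ)) < δ m * (η / 2) := by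
      refine lt_of_le_of_lt (Metric.infDist_le_dist_of_mem ⟨j, rfl⟩) ?_
      rw [Real.dist_eq]
      simp only [hj]
      exact hq x
    have h2 : Metric.infDist (φ x) (range fun j => ((Q j : ℚ) : ℝ)) / δ m < η / 2 := by
      rw [div_lt_iff₀ (hδ m)]
      linarith
    have h3 : 0 ≤ Metric.infDist (φ x) (range fun j => ((Q j : ℚ) : ℝ)) / δ m :=
      div_nonneg Metric.infDist_nonneg (hδ m).le
    have h4 : (0 : ℝ) < 1 / ((m : ℝ) + 1) := by positivity
    simp only [a, zeroFn, sub_zero]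
    rw [abs_of_pos (by linarith)]
    linarith
  obtain ⟨s, hsA, hs⟩ := selection hF hY (range a) (countable_range a) h0
  choose p hp using hsA
  have hmpos : ∀ n, (0 : ℝ) < 1 / (((p n).1 : ℝ) + 1) := fun n => by positivity
  have hlow : ∀ n y, 1 / (((p n).1 : ℝ) + 1) ≤ (s n).1 y := by
    intro n y
    rw [← hp n]
    simp only [a]
    have : 0 ≤ Metric.infDist (φ y) (range fun j => (((p n).2 j : ℚ) : ℝ)) / δ (p n).1 :=
      div_nonneg Metric.infDist_nonneg (hδ _).le
    linarith
  have hmlim : Tendsto (fun n => (p n).1) atTop atTop := by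
    have h1 : Tendsto (fun n => 1 / (((p n).1 : ℝ) + 1)) atTop (𝓝 0) :=
      squeeze_zero (fun n => (hmpos n).le) (fun n => hlow n y0) (hs y0 hy0)
    rw [tendsto_atTop]
    intro N
    have h2 : (0 : ℝ) < 1 / ((N : ℝ) + 1) := by positivity
    filter_upwards [(Metric.tendsto_nhds.1 h1) _ h2] with n hn
    rw [Real.dist_eq, sub_zero, abs_of_pos (hmpos n)] at hn
    have h3 := (one_div_lt_one_div (by positivity) (by positivity)).1 hn
    have h4 : (N : ℝ) < (p n).1 := by linarith
    exact le_of_lt (by exact_mod_cast h4)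
  obtain ⟨ψ, hψ, hψm⟩ := strictMono_subseq_of_tendsto_atTop hmlim
  classical
  let c : ℕ → ℝ := fun n =>
    if h : ∃ k, (p (ψ k)).1 = (Nat.unpair n).1 ∧ (Nat.unpair n).2 < (p (ψ k)).1 + 1 then
      (((p (ψ h.choose)).2 ⟨(Nat.unpair n).2, h.choose_spec.2⟩ : ℚ) : ℝ) - δ (Nat.unpair n).1
    else 0
  refine ⟨c, ?_⟩
  rintro _ ⟨y, hy, rfl⟩
  have h1 : Tendsto (fun k => (s (ψ k)).1 y) atTop (𝓝 0) := (hs y hy).comp hψ.tendsto_atTop
  obtain ⟨k, hk⟩ := ((Metric.tendsto_nhds.1 h1) 1 one_pos).exists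
  rw [Real.dist_eq, sub_zero] at hk
  have h2 : (s (ψ k)).1 y < 1 := (abs_lt.1 hk).2
  rw [← hp] at h2
  simp only [a] at h2
  have h3 : Metric.infDist (φ y) (range fun j => (((p (ψ k)).2 j : ℚ) : ℝ)) < δ (p (ψ k)).1 := by
    have h4 := hmpos (ψ k)
    have h5 : Metric.infDist (φ y) (range fun j => (((p (ψ k)).2 j : ℚ) : ℝ)) /
        δ (p (ψ k)).1 < 1 := by linarith
    rwa [div_lt_one (hδ _)] at h5
  rw [Metric.infDist_lt_iff (range_nonempty _)] at h3
  obtain ⟨_, ⟨j, rfl⟩, hj⟩ := h3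
  rw [Real.dist_eq] at hj
  rw [mem_iUnion]
  refine ⟨Nat.pair (p (ψ k)).1 j, ?_⟩
  have hex : ∃ k', (p (ψ k')).1 = (Nat.unpair (Nat.pair (p (ψ k)).1 j)).1 ∧
      (Nat.unpair (Nat.pair (p (ψ k)).1 j)).2 < (p (ψ k')).1 + 1 :=
    ⟨k, by simp, by simpa using j.2⟩
  have hck : hex.choose = k := by
    have h7 := hex.choose_spec.1.trans
      (by simp : (Nat.unpair (Nat.pair (p (ψ k)).1 j)).1 = (p (ψ k)).1)
    exact hψm.injective h7
  have hc : c (Nat.pair (p (ψ k)).1 j) =
      (((p (ψ k)).2 j : ℚ) : ℝ) - δ (p (ψ k)).1 := by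
    simp only [c]
    rw [dif_pos hex]
    have key : ∀ k' (hk' : k' = k) (h : (Nat.unpair (Nat.pair (p (ψ k)).1 j)).2 <
        (p (ψ k')).1 + 1), (p (ψ k')).2 ⟨_, h⟩ = (p (ψ k)).2 j := by
      intro k' hk' h
      subst hk'
      have h8 : (⟨(Nat.unpair (Nat.pair (p (ψ k')).1 j)).2, h⟩ :
        Fin ((p (ψ k')).1 + 1)) = j := Fin.ext (by simp)
      rw [h8]
    rw [key _ hck]
    simp
  rw [hc]
  have h6 := hδle (p (ψ k)).1 j
  rw [abs_lt] at hj
  constructor <;> linarith

theorem countable_bounded (f : ℕ → ℕ → ℕ) : ∃ g : ℕ → ℕ, ∀ i, ∀ᶠ n in atTop, f i n ≤ g n := by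
  refine ⟨fun n => (Finset.range (n + 1)).sup fun i => f i n, fun i => ?_⟩
  filter_upwards [eventually_ge_atTop i] with n hn
  exact Finset.le_sup (f := fun i => f i n) (Finset.mem_range.2 (Nat.lt_succ_of_le hn))

/-- the Cantor function -/
noncomputable def cf (f : ℕ → Bool) : ℝ := Cardinal.cantorFunction (1 / 3) f

theorem cf_injective : Function.Injective cf :=
  Cardinal.cantorFunction_injective (by norm_num) (by norm_num)

theorem cf_continuous : Continuous cf := by
  unfold cf Cardinal.cantorFunction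
  refine continuous_tsum (u := fun n => (1 / 3 : ℝ) ^ n) ?_ ?_ ?_
  · intro n
    have : (fun x : ℕ → Bool => Cardinal.cantorFunctionAux (1 / 3) x n) =
        (fun b : Bool => cond b ((1 / 3 : ℝ) ^ n) 0) ∘ (fun x : ℕ → Bool => x n) := by
      funext x
      rfl
    rw [this]
    exact continuous_of_discreteTopology.comp (continuous_apply n)
  · exact summable_geometric_of_lt_one (by norm_num) (by norm_num)
  · intro n x
    cases h : x n
    · rw [Cardinal.cantorFunctionAux_false h]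
      simp
    · rw [Cardinal.cantorFunctionAux_true h]
      rw [Real.norm_of_nonneg (by positivity)]

theorem cf_nbhd (a : ℕ → Bool) (ε : ℝ) (hε : 0 < ε) :
    ∃ m : ℕ, ∀ f : ℕ → Bool, (∀ n < m, f n = a n) → |cf f - cf a| < ε := by
  have h1 : cf ⁻¹' (Metric.ball (cf a) ε) ∈ 𝓝 a :=
    cf_continuous.continuousAt.preimage_mem_nhds (Metric.ball_mem_nhds _ hε)
  rw [nhds_pi, Filter.mem_pi] at h1
  obtain ⟨I, hI, t, ht, hsub⟩ := h1
  obtain ⟨m, hm⟩ := hI.bddAbove
  refine ⟨m + 1, fun f hf => ?_⟩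
  have h2 : f ∈ cf ⁻¹' (Metric.ball (cf a) ε) := by
    apply hsub
    intro i hi
    rw [hf i (Nat.lt_succ_of_le (hm hi))]
    exact mem_of_mem_nhds (ht i)
  rw [mem_preimage, Metric.mem_ball, Real.dist_eq] at h2
  exact h2

/-- cumulative sums -/
def cum (g : ℕ → ℕ) : ℕ → ℕ
  | 0 => g 0
  | n + 1 => cum g n + g (n + 1) + 1

theorem cum_strictMono (g : ℕ → ℕ) : StrictMono (cum g) :=
  strictMono_nat_of_lt_succ fun n => by simp only [cum]; omega

theorem le_cum (g : ℕ → ℕ) (n : ℕ) : g n ≤ cum g n := by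
  cases n <;> simp only [cum] <;> omega

open Classical in
/-- the code of a function, a point of the Cantor set -/
noncomputable def code (g : ℕ → ℕ) : ℕ → Bool := fun n => decide (n ∈ range (cum g))

theorem exists_smz_of_bounding_le (hb : bounding ≤ Cardinal.aleph 1) :
    ∃ S : Set ℝ, ¬ S.Countable ∧ StrongMeasureZero S := by
  classical
  have hne : {κ | ∃ F : Set (ℕ → ℕ), UnboundedFam F ∧ #F = κ}.Nonempty := by
    refine ⟨_, Set.univ, fun g => ⟨fun n => g n + 1, trivial, ?_⟩, rfl⟩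
    rw [Filter.not_eventually]
    exact Frequently.of_forall fun n => by simp
  obtain ⟨F, hFu, hF⟩ := csInf_mem hne
  change #F = bounding at hF
  set W := (Cardinal.aleph 1).ord.ToType with hW
  have hWmk : #W = Cardinal.aleph 1 := Cardinal.mk_ord_toType _
  have hFne : F.Nonempty := by
    obtain ⟨f, hf, _⟩ := hFu (fun _ => 0)
    exact ⟨f, hf⟩
  obtain ⟨f, hf⟩ : ∃ f : W → (ℕ → ℕ), range f = F := by
    have h1 : #F ≤ #W := by rw [hF, hWmk]; exact hb
    obtain ⟨e⟩ := Cardinal.le_def _ _ |>.1 h1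
    have : Nonempty F := hFne.to_subtype
    refine ⟨fun w => (Function.invFun e w : F).1, ?_⟩
    ext x
    constructor
    · rintro ⟨w, rfl⟩
      exact (Function.invFun e w : F).2
    · intro hx
      exact ⟨e ⟨x, hx⟩, by
        change ((Function.invFun e (e ⟨x, hx⟩) : F) : ℕ → ℕ) = x
        rw [Function.leftInverse_invFun e.injective]⟩
  have hseg : ∀ w : W, (Iic w).Countable := by
    intro w
    have h1 : (Iio w).Countable := by
      rw [← Cardinal.le_aleph0_iff_set_countable]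
      have h0 : #(Iio w) < #W := Cardinal.mk_Iio_lt w (by rw [hWmk]; exact (Ordinal.type_toType _).symm)
      have h1 : #(Iio w) < Order.succ ℵ₀ :=
        lt_of_lt_of_eq (h0.trans_eq hWmk) Cardinal.succ_aleph0.symm
      exact Order.lt_succ_iff.1 h1
    have h2 : Iic w = insert w (Iio w) := by
      ext x; simp [le_iff_eq_or_lt]
    rw [h2]
    exact h1.insert w
  have hWunc : ¬ (Set.univ : Set W).Countable := by
    rw [← Cardinal.le_aleph0_iff_set_countable, Cardinal.mk_univ, hWmk, not_le]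
    exact Cardinal.aleph0_lt_aleph_one
  have hg : ∀ w : W, ∃ g : ℕ → ℕ, ∀ v ≤ w, ∀ᶠ n in atTop, f v n ≤ g n := by
    intro w
    obtain ⟨u, hu⟩ := (hseg w).exists_eq_range ⟨w, le_refl w⟩
    obtain ⟨g, hg⟩ := countable_bounded fun i => f (u i)
    refine ⟨g, fun v hv => ?_⟩
    have : v ∈ range u := by rw [← hu]; exact hv
    obtain ⟨i, rfl⟩ := this
    exact hg i
  choose g hg using hg
  have hcount : ∀ G : ℕ → ℕ, {w : W | ∀ᶠ n in atTop, g w n ≤ G n}.Countable := by
    intro G
    by_contra hc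
    obtain ⟨f0, hf0, hnot⟩ := hFu G
    rw [← hf] at hf0
    obtain ⟨v, rfl⟩ := hf0
    apply hc
    refine (hseg v).mono fun w hw => ?_
    by_contra hlt
    have hvw : v ≤ w := le_of_lt (not_le.1 hlt)
    apply hnot
    filter_upwards [hg w v hvw, hw] with n h1 h2
    exact h1.trans h2
  let pt : W → ℝ := fun w => cf (code (g w))
  refine ⟨range pt, ?_, ?_⟩
  · intro hc
    apply hWunc
    have h1 : (Set.univ : Set W) = ⋃ y ∈ range pt, pt ⁻¹' {y} := by
      ext w; simp
    rw [h1]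
    refine hc.biUnion ?_
    rintro _ ⟨w, rfl⟩
    refine (hcount (cum (g w))).mono ?_
    intro v hv
    have h2 : code (g v) = code (g w) := cf_injective hv
    have h3 : range (cum (g v)) = range (cum (g w)) := by
      ext n
      have := congrFun h2 n
      simpa [code] using this
    have h4 : cum (g v) = cum (g w) :=
      ((cum_strictMono _).range_inj (cum_strictMono _)).1 h3
    refine Eventually.of_forall fun n => ?_
    rw [← h4]
    exact le_cum _ _
  · intro ε hε
    have hm : ∀ a : Finset ℕ, ∃ m : ℕ, ∀ f : ℕ → Bool, (∀ n < m, f n = decide (n ∈ a)) →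
        |cf f - cf (fun n => decide (n ∈ a))| < ε (2 * Encodable.encode a) / 2 := by
      intro a
      exact cf_nbhd _ _ (by have := hε (2 * Encodable.encode a); positivity)
    choose m hm using hm
    let Gt : ℕ → ℕ := fun k => (Finset.range k).powerset.sup m
    have hGt : Monotone Gt := by
      intro k l hkl
      exact Finset.sup_mono (Finset.powerset_mono.2 (Finset.range_mono hkl))
    let G : ℕ → ℕ := fun n => Nat.rec (Gt 0) (fun _ x => Gt (x + 1)) n
    have hG0 : G 0 = Gt 0 := rfl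
    have hGs : ∀ n, G (n + 1) = Gt (G n + 1) := fun n => rfl
    have key : ∀ w : W, (∀ a : Finset ℕ, ∃ n < m a, code (g w) n ≠ decide (n ∈ a)) →
        ∀ n, g w n ≤ G n := by
      intro w hw
      have hnext : ∀ k, ∃ n, k ≤ n ∧ n < Gt k ∧ n ∈ range (cum (g w)) := by
        intro k
        obtain ⟨n, hn, hne⟩ := hw ((Finset.range k).filter fun n => n ∈ range (cum (g w)))
        have hkn : k ≤ n := by
          by_contra hlt
          apply hne
          simp only [code, Finset.mem_filter, Finset.mem_range]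
          rw [decide_eq_decide]
          constructor
          · intro h; exact ⟨not_le.1 hlt, h⟩
          · intro h; exact h.2
        refine ⟨n, hkn, lt_of_lt_of_le hn (Finset.le_sup (f := m) ?_), ?_⟩
        · rw [Finset.mem_powerset]; exact Finset.filter_subset _ _
        · by_contra hnot
          apply hne
          simp only [code, Finset.mem_filter, Finset.mem_range]
          rw [decide_eq_decide]
          constructor
          · intro h; exact absurd h hnot
          · intro h; exact h.2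
      have hcum : ∀ n, cum (g w) n ≤ G n := by
        intro n
        induction n with
        | zero =>
          obtain ⟨_, _, h2, ⟨j, rfl⟩⟩ := hnext 0
          rw [hG0]
          exact le_trans ((cum_strictMono (g w)).monotone (Nat.zero_le j)) h2.le
        | succ n ih =>
          obtain ⟨_, h1, h2, ⟨j, rfl⟩⟩ := hnext (cum (g w) n + 1)
          rw [hGs]
          have hj : n < j := (cum_strictMono (g w)).lt_iff_lt.1 (Nat.lt_of_succ_le h1)
          have h3 : cum (g w) (n + 1) ≤ cum (g w) j :=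
            (cum_strictMono (g w)).monotone hj
          exact (h3.trans h2.le).trans (hGt (Nat.succ_le_succ ih))
      exact fun n => (le_cum _ _).trans (hcum n)
    have hT : (pt '' {w | ∀ a : Finset ℕ, ∃ n < m a, code (g w) n ≠ decide (n ∈ a)}).Countable := by
      refine Countable.image ?_ _
      exact (hcount G).mono fun w hw => Eventually.of_forall (key w hw)
    obtain ⟨t, ht⟩ : ∃ t : ℕ → ℝ,
        pt '' {w | ∀ a : Finset ℕ, ∃ n < m a, code (g w) n ≠ decide (n ∈ a)} ⊆ range t := by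
      rcases (pt '' {w | ∀ a : Finset ℕ, ∃ n < m a,
        code (g w) n ≠ decide (n ∈ a)}).eq_empty_or_nonempty with h | h
      · exact ⟨fun _ => 0, by rw [h]; exact empty_subset _⟩
      · obtain ⟨t, ht⟩ := hT.exists_eq_range h
        exact ⟨t, ht.subset⟩
    let c : ℕ → ℝ := fun n =>
      if n % 2 = 0 then
        (match (Encodable.decode (α := Finset ℕ) (n / 2)) with
          | some a => cf (fun n => decide (n ∈ a)) - ε n / 2
          | none => 0)
      else t (n / 2) - ε n / 2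
    refine ⟨c, ?_⟩
    rintro _ ⟨w, rfl⟩
    rw [mem_iUnion]
    by_cases hw : ∀ a : Finset ℕ, ∃ n < m a, code (g w) n ≠ decide (n ∈ a)
    · obtain ⟨k, hk⟩ := ht ⟨w, hw, rfl⟩
      refine ⟨2 * k + 1, ?_⟩
      have hc : c (2 * k + 1) = t k - ε (2 * k + 1) / 2 := by
        simp only [c]
        rw [if_neg (by omega)]
        have : (2 * k + 1) / 2 = k := by omega
        rw [this]
      rw [hc, hk]
      have := hε (2 * k + 1)
      constructor <;> linarith
    · push Not at hw
      obtain ⟨a, ha⟩ := hw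
      have h1 := hm a (code (g w)) ha
      refine ⟨2 * Encodable.encode a, ?_⟩
      have hc : c (2 * Encodable.encode a) =
          cf (fun n => decide (n ∈ a)) - ε (2 * Encodable.encode a) / 2 := by
        simp only [c]
        rw [if_pos (by omega)]
        have : (2 * Encodable.encode a) / 2 = Encodable.encode a := by omega
        rw [this, Encodable.encodek]
      rw [hc]
      rw [abs_lt] at h1
      constructor
      · simp only [pt]; linarith [h1.1]
      · simp only [pt]; linarith [h1.2]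

theorem zeros_countable (c : ℕ → ℝ) (C : ℝ) (hC : ∀ n, |c n| ≤ C) (hc : c ≠ 0) :
    {t : ℝ | t ∈ Ioo (0 : ℝ) 1 ∧ ∑' n, c n * t ^ n = 0}.Countable := by
  set p : FormalMultilinearSeries ℝ ℝ ℝ := FormalMultilinearSeries.ofScalars ℝ c with hp
  have hrad : (1 : ENNReal) ≤ p.radius := by
    have := p.le_radius_of_bound C (r := 1) (fun n => by
      rw [hp, FormalMultilinearSeries.ofScalars_norm]
      simpa using hC n)
    simpa using this
  have hsum : ∀ t : ℝ, p.sum t = ∑' n, c n * t ^ n := by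
    intro t
    have := FormalMultilinearSeries.ofScalars_sum_eq (E := ℝ) c t
    rw [FormalMultilinearSeries.ofScalarsSum] at this
    rw [hp, this]
    simp
  have hball : HasFPowerSeriesOnBall p.sum p 0 p.radius :=
    p.hasFPowerSeriesOnBall (lt_of_lt_of_le one_pos hrad)
  have han : AnalyticOnNhd ℝ p.sum (Metric.eball 0 1) :=
    hball.analyticOnNhd.mono (Metric.eball_subset_eball hrad)
  have hmem : ∀ t ∈ Ioo (0 : ℝ) 1, t ∈ Metric.eball (0 : ℝ) 1 := by
    intro t ht
    rw [Metric.mem_eball, edist_dist, Real.dist_eq, sub_zero, abs_of_pos ht.1]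
    simpa using ht.2
  have hpre : IsPreconnected (Metric.eball (0 : ℝ) 1) := by
    have : Metric.eball (0 : ℝ) 1 = Metric.ball 0 1 := by
      have := Metric.eball_ofReal (x := (0 : ℝ)) (ε := 1)
      simpa using this
    rw [this]
    exact (convex_ball _ _).isPreconnected
  set Z := {t : ℝ | t ∈ Ioo (0 : ℝ) 1 ∧ ∑' n, c n * t ^ n = 0} with hZ
  by_contra hunc
  have hacc : ∃ t ∈ Z, ∃ᶠ z in 𝓝[≠] t, p.sum z = 0 := by
    by_contra hno
    push Not at hno
    apply hunc
    have : DiscreteTopology Z := by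
      rw [discreteTopology_subtype_iff]
      intro t ht
      have h1 := hno t ht
      rw [Filter.inf_principal_eq_bot]
      filter_upwards [h1] with x hx hxZ
      exact hx ((hsum x).trans hxZ.2)
    exact (countable_coe_iff).1
      ((TopologicalSpace.separableSpace_iff_countable (α := Z)).1 inferInstance)
  obtain ⟨t, ht, hfr⟩ := hacc
  have hzero := han.eqOn_zero_of_preconnected_of_frequently_eq_zero hpre (hmem t ht.1) hfr
  have h0 : HasFPowerSeriesAt (0 : ℝ → ℝ) p 0 := by
    have h1 : HasFPowerSeriesAt p.sum p 0 := hball.hasFPowerSeriesAt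
    refine h1.congr ?_
    filter_upwards [Metric.eball_mem_nhds (0 : ℝ) one_pos] with z hz
    exact hzero hz
  have h2 := h0.eq_zero
  rw [hp, FormalMultilinearSeries.ofScalars_series_eq_zero] at h2
  exact hc h2

theorem exists_injOn {X : Type u} [TopologicalSpace X] [T35Space X] {D : Set (Cp X)}
    (hD : D.Countable) (hcl : closure D = Set.univ) (Y : Set X)
    (hY : #Y < Cardinal.continuum) (hinf : ℵ₀ ≤ #Y) :
    ∃ φ : X → ℝ, Continuous φ ∧ InjOn φ Y := by
  classical
  have hDne : D.Nonempty := by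
    rw [← closure_nonempty_iff, hcl]
    exact ⟨zeroFn X, trivial⟩
  obtain ⟨d, hd⟩ := hD.exists_eq_range hDne
  let θ : ℕ → X → ℝ := fun k x => Real.arctan ((d k).1 x)
  have hθc : ∀ k, Continuous (θ k) := fun k => Real.continuous_arctan.comp (d k).2
  have hθb : ∀ k x, |θ k x| ≤ Real.pi / 2 := by
    intro k x
    rw [abs_le]
    exact ⟨(Real.neg_pi_div_two_lt_arctan _).le, (Real.arctan_lt_pi_div_two _).le⟩
  have hsep : ∀ x y : X, x ≠ y → ∃ k, θ k x ≠ θ k y := by
    intro x y hxy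
    obtain ⟨f, hf, hfx, hfy⟩ := CompletelyRegularSpace.completely_regular x {y}
      isClosed_singleton (by simpa using hxy)
    let F : Cp X := ⟨fun z => (f z : ℝ), continuous_subtype_val.comp hf⟩
    have hF : F ∈ closure D := by rw [hcl]; trivial
    obtain ⟨g, hg, hgF⟩ := (mem_closure_Cp _ _).1 hF {x, y} (1 / 3) (by norm_num)
    rw [hd] at hg
    obtain ⟨k, rfl⟩ := hg
    refine ⟨k, fun h => ?_⟩
    have h1 : (d k).1 x = (d k).1 y := Real.arctan_injective h
    have h2 := hgF x (by simp)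
    have h3 := hgF y (by simp)
    have h4 : F.1 x = 0 := by simp [F, hfx]
    have h5 : F.1 y = 1 := by
      have := hfy (mem_singleton y)
      simp [F, this]
    rw [h4, h1, abs_lt] at h2
    rw [h5, abs_lt] at h3
    linarith [h2.1, h2.2, h3.1, h3.2]
  let Z : Y × Y → Set ℝ := fun p =>
    if p.1 = p.2 then ∅ else
      {t : ℝ | t ∈ Ioo (0 : ℝ) 1 ∧ ∑' n, (θ n p.1 - θ n p.2) * t ^ n = 0}
  have hZ : ∀ p, (Z p).Countable := by
    intro p
    simp only [Z]
    split_ifs with h
    · exact countable_empty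
    · refine zeros_countable _ Real.pi (fun n => ?_) ?_
      · have h1 := hθb n p.1
        have h2 := hθb n p.2
        have h3 := abs_sub (θ n p.1) (θ n p.2)
        linarith
      · intro h0
        obtain ⟨k, hk⟩ := hsep p.1 p.2 (fun h' => h (Subtype.ext h'))
        apply hk
        have := congrFun h0 k
        simpa [sub_eq_zero] using this
  have hU : #(⋃ p, Z p : Set ℝ) < Cardinal.continuum := by
    have h1 : Cardinal.lift.{u} #(⋃ p, Z p : Set ℝ) ≤
        Cardinal.sum (fun p : Y × Y => #(Z p)) := Cardinal.mk_iUnion_le_sum_mk_lift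
    have h2 : Cardinal.sum (fun p : Y × Y => #(Z p)) ≤
        Cardinal.sum (fun _ : Y × Y => (ℵ₀ : Cardinal.{0})) :=
      Cardinal.sum_le_sum _ _ (fun p => Cardinal.le_aleph0_iff_set_countable.2 (hZ p))
    have h3 : Cardinal.sum (fun _ : Y × Y => (ℵ₀ : Cardinal.{0})) = #Y := by
      rw [Cardinal.sum_const, Cardinal.mk_prod]
      simp only [Cardinal.lift_uzero, Cardinal.lift_id, Cardinal.lift_aleph0]
      rw [Cardinal.mul_eq_self hinf, Cardinal.mul_aleph0_eq hinf]
    have h4 : Cardinal.lift.{u} #(⋃ p, Z p : Set ℝ) < Cardinal.lift.{u} Cardinal.continuum.{0} := by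
      rw [Cardinal.lift_continuum]
      exact (h1.trans (h2.trans_eq h3)).trans_lt hY
    exact Cardinal.lift_lt.1 h4
  have hex : ∃ t ∈ Ioo (0 : ℝ) 1, t ∉ ⋃ p, Z p := by
    by_contra hc
    push Not at hc
    have h1 : Ioo (0 : ℝ) 1 ⊆ ⋃ p, Z p := hc
    have h2 := Cardinal.mk_le_mk_of_subset h1
    rw [Cardinal.mk_Ioo_real (by norm_num)] at h2
    exact absurd h2 (not_le.2 hU)
  obtain ⟨t, ht, htZ⟩ := hex
  have hsumm : ∀ x, Summable fun n => θ n x * t ^ n := by
    intro x
    refine Summable.of_norm_bounded (g := fun n => Real.pi / 2 * t ^ n) ?_ ?_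
    · exact (summable_geometric_of_lt_one ht.1.le ht.2).mul_left _
    · intro n
      rw [norm_mul, Real.norm_eq_abs, Real.norm_eq_abs, abs_of_nonneg (pow_nonneg ht.1.le n)]
      exact mul_le_mul_of_nonneg_right (hθb n x) (pow_nonneg ht.1.le n)
  refine ⟨fun x => ∑' n, θ n x * t ^ n, ?_, ?_⟩
  · refine continuous_tsum (u := fun n => Real.pi / 2 * t ^ n) ?_ ?_ ?_
    · exact fun n => (hθc n).mul continuous_const
    · exact (summable_geometric_of_lt_one ht.1.le ht.2).mul_left _
    · intro n x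
      rw [norm_mul, Real.norm_eq_abs, Real.norm_eq_abs, abs_of_nonneg (pow_nonneg ht.1.le n)]
      exact mul_le_mul_of_nonneg_right (hθb n x) (pow_nonneg ht.1.le n)
  · intro x hx y hy hxy
    by_contra hne
    apply htZ
    rw [mem_iUnion]
    refine ⟨(⟨x, hx⟩, ⟨y, hy⟩), ?_⟩
    simp only [Z]
    rw [if_neg (fun h : (⟨x, hx⟩ : Y) = ⟨y, hy⟩ => hne (congrArg Subtype.val h))]
    refine ⟨ht, ?_⟩
    have h1 := (hsumm x).tsum_sub (hsumm y)
    simp only at hxy
    rw [hxy, sub_self] at h1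
    rw [← h1]
    congr 1
    ext n
    ring

theorem bounding_le_continuum : bounding ≤ Cardinal.continuum := by
  have h1 : bounding ≤ #(Set.univ : Set (ℕ → ℕ)) := by
    refine csInf_le' ⟨Set.univ, fun g => ⟨fun n => g n + 1, trivial, ?_⟩, rfl⟩
    rw [Filter.not_eventually]
    exact Frequently.of_forall fun n => by simp
  refine h1.trans ?_
  rw [Cardinal.mk_univ]
  simp

theorem exists_smz_of_FSeparable (X : Type u) [TopologicalSpace X] [T35Space X]
    (hS : FSeparable (Cp X)) (hX : Uncountable X) :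
    ∃ S : Set ℝ, ¬ S.Countable ∧ StrongMeasureZero S := by
  by_cases hb : bounding ≤ Cardinal.aleph 1
  · exact exists_smz_of_bounding_le hb
  rw [not_le] at hb
  have hXle : Cardinal.aleph 1 ≤ #X := by
    rw [← Cardinal.succ_aleph0, Order.succ_le_iff]
    exact Cardinal.aleph0_lt_mk_iff.2 hX
  obtain ⟨Y, hY⟩ := Cardinal.le_mk_iff_exists_set.1 hXle
  have hcont : Cardinal.lift.{u} (Cardinal.aleph.{0} 1) <
      Cardinal.lift.{u} Cardinal.continuum.{0} :=
    Cardinal.lift_lt.2 (hb.trans_le bounding_le_continuum)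
  rw [Cardinal.lift_aleph, Ordinal.lift_one, Cardinal.lift_continuum] at hcont
  have hbl : Cardinal.lift.{u} (Cardinal.aleph.{0} 1) < Cardinal.lift.{u} bounding :=
    Cardinal.lift_lt.2 hb
  rw [Cardinal.lift_aleph, Ordinal.lift_one] at hbl
  obtain ⟨D, hD, hF⟩ := hS
  have hcl : closure D = Set.univ := by
    ext f
    simp only [Set.mem_univ, iff_true]
    have : f ∈ FClosure D := by rw [hF]; trivial
    exact this.1
  obtain ⟨φ, hφ, hinj⟩ := exists_injOn hD hcl Y (by rw [hY]; exact hcont)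
    (by rw [hY]; exact Cardinal.aleph0_le_aleph 1)
  refine ⟨φ '' Y, ?_, smz_image ⟨D, hD, hF⟩ Y (by rw [hY]; exact hbl) φ hφ⟩
  intro hc
  have h1 : Y.Countable := countable_of_injective_of_countable_image hinj hc
  rw [← Cardinal.le_aleph0_iff_set_countable, hY] at h1
  exact absurd h1 (not_le.2 Cardinal.aleph0_lt_aleph_one)

/-- Every finite subfamily of `P` has infinite intersection. -/
def SFIP (P : Set (Set ℕ)) : Prop :=
  ∀ Q : Finset (Set ℕ), (Q : Set (Set ℕ)) ⊆ P → (⋂₀ (Q : Set (Set ℕ))).Infinite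

/-- `P` has an infinite pseudo-intersection. -/
def HasPseudo (P : Set (Set ℕ)) : Prop :=
  ∃ B : Set ℕ, B.Infinite ∧ ∀ S ∈ P, (B \ S).Finite

/-- The pseudo-intersection number `𝔭`. -/
noncomputable def pseudo : Cardinal.{0} :=
  sInf {κ | ∃ P : Set (Set ℕ), SFIP P ∧ ¬ HasPseudo P ∧ #P = κ}

theorem hasPseudo_of_lt {P : Set (Set ℕ)} (h : #P < pseudo) (hP : SFIP P) : HasPseudo P := by
  by_contra hc
  have h1 : pseudo ≤ #P := csInf_le' ⟨P, hP, hc, rfl⟩
  exact absurd h1 (not_le.2 h)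

theorem pseudo_le_continuum : pseudo ≤ Cardinal.continuum := by
  by_cases h : {κ | ∃ P : Set (Set ℕ), SFIP P ∧ ¬ HasPseudo P ∧ #P = κ}.Nonempty
  · obtain ⟨P, _, _, hP⟩ := csInf_mem h
    change #P = pseudo at hP
    rw [← hP]
    refine (Cardinal.mk_set_le P).trans ?_
    simp
  · rw [not_nonempty_iff_eq_empty] at h
    unfold pseudo
    rw [h, Cardinal.sInf_empty]
    exact zero_le

theorem not_frechet (X : Type u) [TopologicalSpace X] [DiscreteTopology X] (hX : Uncountable X) :
    ¬ FrechetUrysohnSpace (Cp X) := by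
  classical
  intro hFU
  let one : Cp X := ⟨fun _ => 1, continuous_const⟩
  have h1 : one ∈ closure {g : Cp X | {x | g.1 x ≠ 0}.Finite} := by
    rw [mem_closure_Cp]
    intro F ε hε
    refine ⟨⟨fun x => if x ∈ F then 1 else 0, continuous_of_discreteTopology⟩, ?_, ?_⟩
    · refine F.finite_toSet.subset ?_
      intro x hx
      simp only [mem_ofPred_eq, ne_eq, ite_eq_right_iff, one_ne_zero, imp_false, not_not] at hx
      exact hx
    · intro x hx
      simp [hx, one, hε]
  rw [mem_closure_iff_seq_limit] at h1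
  obtain ⟨s, hs, hlim⟩ := h1
  rw [tendsto_Cp] at hlim
  have hc : (⋃ n, {x | (s n).1 x ≠ 0}).Countable := countable_iUnion fun n => (hs n).countable
  have : ∃ x, x ∉ ⋃ n, {x | (s n).1 x ≠ 0} := by
    by_contra hall
    push Not at hall
    have h2 : (⋃ n, {x | (s n).1 x ≠ 0}) = Set.univ := eq_univ_of_forall hall
    rw [h2] at hc
    exact not_countable_iff.2 hX (countable_univ_iff.1 hc)
  obtain ⟨x, hx⟩ := this
  have h3 : ∀ n, (s n).1 x = 0 := by
    intro n
    by_contra hne
    exact hx (mem_iUnion.2 ⟨n, hne⟩)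
  have h4 := hlim x
  simp only [h3] at h4
  have h5 := tendsto_nhds_unique h4 tendsto_const_nhds
  simp [one] at h5

theorem fSeparable_discrete (X : Type u) [TopologicalSpace X] [DiscreteTopology X]
    (hX : Uncountable X) (hlt : #X < Cardinal.lift.{u} pseudo) : FSeparable (Cp X) := by
  classical
  -- an injection into the Cantor space
  obtain ⟨e, he⟩ : ∃ e : X → (ℕ → Bool), Function.Injective e := by
    have h1 : Cardinal.lift.{0} #X ≤ Cardinal.lift.{u} #(ℕ → Bool) := by
      rw [Cardinal.lift_uzero]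
      refine hlt.le.trans ?_
      refine Cardinal.lift_le.2 (pseudo_le_continuum.trans ?_)
      simp
    obtain ⟨e⟩ := Cardinal.lift_mk_le'.1 h1
    exact ⟨e, e.injective⟩
  let d : (Σ n : ℕ, ((Fin n → Bool) → ℚ)) → Cp X := fun p =>
    ⟨fun x => (p.2 (fun i => e x i) : ℚ), continuous_of_discreteTopology⟩
  have hdense : ∀ f : Cp X, f ∈ closure (range d) := by
    intro f
    rw [mem_closure_Cp]
    intro F ε hε
    have hsep : ∀ p : X × X, ∃ N : ℕ, p.1 ≠ p.2 → ∃ i < N, e p.1 i ≠ e p.2 i := by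
      intro p
      by_cases hp : p.1 = p.2
      · exact ⟨0, fun h => absurd hp h⟩
      · have : e p.1 ≠ e p.2 := fun h => hp (he h)
        obtain ⟨i, hi⟩ := Function.ne_iff.1 this
        exact ⟨i + 1, fun _ => ⟨i, Nat.lt_succ_self _, hi⟩⟩
    choose N hN using hsep
    let n := (F ×ˢ F).sup N
    have hq : ∀ x : X, ∃ q : ℚ, |f.1 x - q| < ε := fun x => exists_rat_near (f.1 x) hε
    choose q hq using hq
    let Q : (Fin n → Bool) → ℚ := fun a =>
      if h : ∃ x ∈ F, (fun i : Fin n => e x i) = a then q h.choose else 0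
    refine ⟨d ⟨n, Q⟩, ⟨_, rfl⟩, fun x hx => ?_⟩
    have hex : ∃ y ∈ F, (fun i : Fin n => e y i) = (fun i : Fin n => e x i) := ⟨x, hx, rfl⟩
    have hyx : hex.choose = x := by
      by_contra hne
      obtain ⟨i, hi, hne'⟩ := hN (hex.choose, x) hne
      have hin : i < n := hi.trans_le
        (Finset.le_sup (f := N) (Finset.mem_product.2 ⟨hex.choose_spec.1, hx⟩))
      exact hne' (congrFun hex.choose_spec.2 ⟨i, hin⟩)
    have hQ : Q (fun i : Fin n => e x i) = q x := by
      simp only [Q]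
      rw [dif_pos hex, hyx]
    simp only [d, hQ]
    rw [abs_sub_comm]
    exact hq x
  refine ⟨range d, countable_range d, ?_⟩
  ext f
  simp only [Set.mem_univ, iff_true]
  refine ⟨hdense f, fun A hA hfA => ?_⟩
  by_cases hf : f ∈ A
  · exact ⟨fun _ => f, fun _ => hf, tendsto_const_nhds⟩
  have hAne : A.Nonempty := by
    rw [← closure_nonempty_iff]; exact ⟨_, hfA⟩
  obtain ⟨a, rfl⟩ := ((countable_range d).mono hA).exists_eq_range hAne
  have hne : ∀ n, ∃ x, (a n).1 x ≠ f.1 x := by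
    intro n
    by_contra hc
    push Not at hc
    exact hf ⟨n, Subtype.ext (funext hc)⟩
  choose z hz using hne
  let S : Finset X × ℕ → Set ℕ := fun p => {n | ∀ x ∈ p.1, |(a n).1 x - f.1 x| < 1 / ((p.2 : ℝ) + 1)}
  have hSinf : ∀ p, (S p).Infinite := by
    intro p hfin
    rw [mem_closure_Cp] at hfA
    obtain ⟨δ, hδ, hδle⟩ : ∃ δ : ℝ, 0 < δ ∧ ∀ n ∈ S p, δ ≤ |(a n).1 (z n) - f.1 (z n)| := by
      rcases (S p).eq_empty_or_nonempty with hIe | hIn
      · exact ⟨1, one_pos, by simp [hIe]⟩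
      · obtain ⟨n0, hn0, hmin⟩ := hfin.exists_minimalFor
          (fun n => |(a n).1 (z n) - f.1 (z n)|) (S p) hIn
        refine ⟨|(a n0).1 (z n0) - f.1 (z n0)|, abs_pos.2 (sub_ne_zero.2 (hz n0)), fun n hn => ?_⟩
        by_contra hlt
        exact hlt (hmin hn (le_of_lt (not_le.1 hlt)))
    obtain ⟨_, ⟨n, rfl⟩, hn⟩ := hfA (p.1 ∪ hfin.toFinset.image z)
      (min δ (1 / ((p.2 : ℝ) + 1))) (lt_min hδ (by positivity))
    have hnS : n ∈ S p := fun x hx =>
      (hn x (Finset.mem_union_left _ hx)).trans_le (min_le_right _ _)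
    have h1 := hn (z n) (Finset.mem_union_right _ (Finset.mem_image_of_mem z (by simpa using hnS)))
    have h2 := hδle n hnS
    exact absurd (h1.trans_le (min_le_left _ _)) (not_lt.2 h2)
  have hSanti : ∀ p q : Finset X × ℕ, p.1 ⊆ q.1 → p.2 ≤ q.2 → S q ⊆ S p := by
    intro p q h1 h2 n hn x hx
    refine (hn x (h1 hx)).trans_le ?_
    apply one_div_le_one_div_of_le (by positivity)
    have : (p.2 : ℝ) ≤ q.2 := by exact_mod_cast h2
    linarith
  have hSFIP : SFIP (range S) := by
    intro Q hQ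
    have hex : ∃ p, S p ⊆ ⋂₀ (Q : Set (Set ℕ)) := by
      induction Q using Finset.induction_on with
      | empty => exact ⟨(∅, 0), by simp⟩
      | insert s Q hs ih =>
        obtain ⟨p, hp⟩ := ih (fun x hx => hQ (by simp; right; exact hx))
        obtain ⟨q, hq⟩ := hQ (show s ∈ ((insert s Q : Finset (Set ℕ)) : Set (Set ℕ)) by simp)
        refine ⟨(p.1 ∪ q.1, max p.2 q.2), ?_⟩
        rw [Finset.coe_insert, sInter_insert]
        refine subset_inter ?_ ?_
        · rw [← hq]
          exact hSanti _ _ Finset.subset_union_right (le_max_right _ _)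
        · exact (hSanti _ _ Finset.subset_union_left (le_max_left _ _)).trans hp
    obtain ⟨p, hp⟩ := hex
    exact (hSinf p).mono hp
  have hcard : #(range S) < pseudo := by
    have h1 : Cardinal.lift.{u} #(range S) ≤ Cardinal.lift.{0} #(Finset X × ℕ) :=
      Cardinal.mk_range_le_lift
    have hinf : Infinite X := inferInstance
    have h2 : #(Finset X × ℕ) = #X := by
      rw [Cardinal.mk_prod]
      simp [Cardinal.mk_finset_of_infinite]
    rw [Cardinal.lift_uzero, h2] at h1
    exact Cardinal.lift_lt.1 (h1.trans_lt hlt)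
  obtain ⟨B, hB, hBS⟩ := hasPseudo_of_lt hcard hSFIP
  refine ⟨fun k => a (Nat.nth (· ∈ B) k), fun k => ⟨_, rfl⟩, ?_⟩
  rw [tendsto_Cp]
  intro x
  rw [Metric.tendsto_atTop]
  intro ε hε
  obtain ⟨k, hk⟩ := exists_nat_one_div_lt hε
  have hfin := hBS (S ({x}, k)) ⟨_, rfl⟩
  obtain ⟨M, hM⟩ := hfin.bddAbove
  refine ⟨M + 1, fun n hn => ?_⟩
  have h1 : Nat.nth (· ∈ B) n ∈ B := Nat.nth_mem_of_infinite hB n
  have h2 : n ≤ Nat.nth (· ∈ B) n := (Nat.nth_strictMono hB).le_apply
  have h3 : Nat.nth (· ∈ B) n ∈ S ({x}, k) := by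
    by_contra hnot
    have := hM ⟨h1, hnot⟩
    omega
  rw [Real.dist_eq]
  exact (h3 x (by simp)).trans hk

/-- Every point of `Y` is the limit of a sequence from `A`. -/
def SeqDense {Y : Type u} [TopologicalSpace Y] (A : Set Y) : Prop :=
  ∀ y : Y, ∃ s : ℕ → Y, (∀ n, s n ∈ A) ∧ Tendsto s atTop (𝓝 y)

/-- `Y` is separable and every countable dense subset is sequentially dense. -/
def StronglySeqSeparable (Y : Type u) [TopologicalSpace Y] : Prop :=
  (∃ A : Set Y, A.Countable ∧ Dense A) ∧ ∀ A : Set Y, A.Countable → Dense A → SeqDense A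

theorem countable_frechet_of_sss {X : Type u} [TopologicalSpace X]
    (h : StronglySeqSeparable (Cp X)) (A : Set (Cp X)) (hA : A.Countable) (f : Cp X)
    (hf : f ∈ closure A) : ∃ s : ℕ → Cp X, (∀ n, s n ∈ A) ∧ Tendsto s atTop (𝓝 f) := by
  classical
  obtain ⟨⟨D, hD, hDd⟩, hseq⟩ := h
  have hAne : A.Nonempty := by
    rw [← closure_nonempty_iff]; exact ⟨_, hf⟩
  obtain ⟨a, rfl⟩ := hA.exists_eq_range hAne
  have hDne : D.Nonempty := by
    rw [← closure_nonempty_iff, hDd.closure_eq]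
    exact ⟨zeroFn X, trivial⟩
  obtain ⟨d, rfl⟩ := hD.exists_eq_range hDne
  rcases isEmpty_or_nonempty X with hX | ⟨⟨x0⟩⟩
  · refine ⟨fun n => a n, fun n => ⟨n, rfl⟩, ?_⟩
    rw [tendsto_Cp]
    intro x
    exact hX.elim x
  let e : ℕ × ℕ × ℕ → Cp X := fun p =>
    ⟨fun x => (1 - min 1 (((p.2.2 : ℝ) + 1) * |(a p.2.1).1 x - f.1 x|)) * (d p.1).1 x +
        min 1 (((p.2.2 : ℝ) + 1) * |(a p.2.1).1 x - f.1 x|), by
      have h1 : Continuous fun x => min 1 (((p.2.2 : ℝ) + 1) * |(a p.2.1).1 x - f.1 x|) :=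
        continuous_const.min (continuous_const.mul (((a p.2.1).2.sub f.2).abs))
      exact ((continuous_const.sub h1).mul (d p.1).2).add h1⟩
  let E : Set (Cp X) := {g | ∃ p, g = e p ∧ 1 / ((p.2.2 : ℝ) + 1) ≤ |g.1 x0|}
  have hEc : E.Countable := by
    refine (countable_range e).mono ?_
    rintro _ ⟨p, rfl, _⟩
    exact ⟨p, rfl⟩
  have hEd : Dense E := by
    intro g
    rw [mem_closure_Cp]
    intro F ε hε
    obtain ⟨c, hcε, hc0⟩ : ∃ c : ℝ, |c| < ε / 2 ∧ g.1 x0 + c ≠ 0 := by
      by_cases h0 : g.1 x0 = 0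
      · refine ⟨ε / 4, ?_, ?_⟩
        · rw [abs_of_pos (by positivity)]; linarith
        · rw [h0]; positivity
      · exact ⟨0, by simpa using hε, by simpa using h0⟩
    have hpos : 0 < |g.1 x0 + c| := abs_pos.2 hc0
    obtain ⟨j, hj⟩ := exists_nat_one_div_lt (half_pos hpos)
    set η := min (ε / 4) (|g.1 x0 + c| / 4) with hη
    have hηpos : 0 < η := lt_min (by positivity) (by positivity)
    let g' : Cp X := ⟨fun x => g.1 x + c, g.2.add continuous_const⟩
    obtain ⟨_, ⟨k, rfl⟩, hk⟩ := (mem_closure_Cp _ g').1 (hDd g') (insert x0 F) η hηpos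
    obtain ⟨M, hM0, hM⟩ : ∃ M : ℝ, 0 < M ∧ ∀ x ∈ insert x0 F, |1 - (d k).1 x| ≤ M := by
      refine ⟨∑ x ∈ insert x0 F, |1 - (d k).1 x| + 1, ?_, fun x hx => ?_⟩
      · have := Finset.sum_nonneg (fun x (_ : x ∈ insert x0 F) => abs_nonneg (1 - (d k).1 x))
        linarith
      · have := Finset.single_le_sum (f := fun x => |1 - (d k).1 x|)
          (fun x _ => abs_nonneg _) hx
        linarith
    obtain ⟨_, ⟨n, rfl⟩, hn⟩ := (mem_closure_Cp _ f).1 hf (insert x0 F)
      (η / (M * ((j : ℝ) + 1))) (by positivity)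
    have key : ∀ x ∈ insert x0 F, |(e (k, n, j)).1 x - g'.1 x| < 2 * η := by
      intro x hx
      have h1 := hk x hx
      have h2 := hn x hx
      have h3 := hM x hx
      rw [lt_div_iff₀ (by positivity)] at h2
      set u := min 1 (((j : ℝ) + 1) * |(a n).1 x - f.1 x|) with hu
      have hu0 : 0 ≤ u := le_min zero_le_one (by positivity)
      have hu1 : u ≤ ((j : ℝ) + 1) * |(a n).1 x - f.1 x| := min_le_right _ _
      have h4 : (e (k, n, j)).1 x - g'.1 x = u * (1 - (d k).1 x) + ((d k).1 x - g'.1 x) := by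
        simp only [e]
        rw [← hu]
        ring
      rw [h4]
      refine (abs_add_le _ _).trans_lt ?_
      rw [abs_mul, abs_of_nonneg hu0]
      have h5 : u * |1 - (d k).1 x| ≤ u * M := mul_le_mul_of_nonneg_left h3 hu0
      have h6 : u * M ≤ (((j : ℝ) + 1) * |(a n).1 x - f.1 x|) * M :=
        mul_le_mul_of_nonneg_right hu1 hM0.le
      have h7 : (((j : ℝ) + 1) * |(a n).1 x - f.1 x|) * M =
        |(a n).1 x - f.1 x| * (M * ((j : ℝ) + 1)) := by ring
      linarith
    refine ⟨e (k, n, j), ⟨(k, n, j), rfl, ?_⟩, fun x hx => ?_⟩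
    · have h1 := key x0 (Finset.mem_insert_self _ _)
      have h2 : 2 * η ≤ |g.1 x0 + c| / 2 := by
        have := min_le_right (ε / 4) (|g.1 x0 + c| / 4)
        linarith
      have h3 := abs_sub_abs_le_abs_sub (g'.1 x0) ((e (k, n, j)).1 x0)
      rw [abs_sub_comm (g'.1 x0)] at h3
      have h4 : |g'.1 x0| = |g.1 x0 + c| := rfl
      rw [h4] at h3
      have h5 : 1 / ((j : ℝ) + 1) < |g.1 x0 + c| / 2 := hj
      simp only
      linarith
    · have h1 := key x (Finset.mem_insert_of_mem hx)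
      have h2 : 2 * η ≤ ε / 2 := by
        have := min_le_left (ε / 4) (|g.1 x0 + c| / 4)
        linarith
      have h3 : (e (k, n, j)).1 x - g.1 x = ((e (k, n, j)).1 x - g'.1 x) + c := by
        simp only [g']; ring
      rw [h3]
      refine (abs_add_le _ _).trans_lt ?_
      linarith
  obtain ⟨s, hsE, hs⟩ := hseq E hEc hEd (zeroFn X)
  rw [tendsto_Cp] at hs
  choose p hp hlow using hsE
  have hj : Tendsto (fun i => 1 / (((p i).2.2 : ℝ) + 1)) atTop (𝓝 0) := by
    have h1 : Tendsto (fun i => |(s i).1 x0|) atTop (𝓝 0) := by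
      have := (hs x0).abs
      simpa [zeroFn] using this
    exact squeeze_zero (fun i => by positivity) hlow h1
  refine ⟨fun i => a (p i).2.1, fun i => ⟨_, rfl⟩, ?_⟩
  rw [tendsto_Cp]
  intro x
  have h1 : ∀ᶠ i in atTop, |(a (p i).2.1).1 x - f.1 x| ≤ 1 / (((p i).2.2 : ℝ) + 1) := by
    filter_upwards [(Metric.tendsto_nhds.1 (hs x)) 1 one_pos] with i hi
    rw [Real.dist_eq] at hi
    by_contra hc
    rw [not_le, div_lt_iff₀ (by positivity)] at hc
    have h2 : min 1 ((((p i).2.2 : ℝ) + 1) * |(a (p i).2.1).1 x - f.1 x|) = 1 := by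
      apply min_eq_left
      rw [mul_comm]
      exact hc.le
    have h3 : (s i).1 x = 1 := by
      rw [hp i]
      simp only [e]
      rw [h2]
      ring
    rw [h3] at hi
    simp [zeroFn] at hi
  have h2 : Tendsto (fun i => (a (p i).2.1).1 x - f.1 x) atTop (𝓝 0) :=
    squeeze_zero_norm' h1 hj
  have h3 := h2.add_const (f.1 x)
  simpa using h3

theorem fSeparable_of_sss {X : Type u} [TopologicalSpace X]
    (h : StronglySeqSeparable (Cp X)) : FSeparable (Cp X) := by
  obtain ⟨D, hD, hDd⟩ := h.1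
  refine ⟨D, hD, ?_⟩
  ext f
  simp only [Set.mem_univ, iff_true]
  exact ⟨hDd f, fun A hA hfA => countable_frechet_of_sss h A (hD.mono hA) f hfA⟩

theorem sss_of_fSeparable {X : Type u} [TopologicalSpace X]
    (hX : #X < Cardinal.lift.{u} bounding) (h : FSeparable (Cp X)) :
    StronglySeqSeparable (Cp X) := by
  obtain ⟨D, hD, hF⟩ := h
  refine ⟨⟨D, hD, fun f => ?_⟩, fun A hA hAd f => ?_⟩
  · have : f ∈ FClosure D := by rw [hF]; trivial
    exact this.1
  · have hf := hAd f
    let T : Cp X → Cp X := fun g => ⟨fun x => g.1 x - f.1 x, g.2.sub f.2⟩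
    have h0 : zeroFn X ∈ closure (T '' A) := by
      rw [mem_closure_Cp] at hf ⊢
      intro F ε hε
      obtain ⟨g, hg, hgF⟩ := hf F ε hε
      exact ⟨T g, ⟨g, hg, rfl⟩, fun x hx => by simpa [T, zeroFn] using hgF x hx⟩
    obtain ⟨s, hs, hlim⟩ := selection hF (Y := Set.univ) (by rw [Cardinal.mk_univ]; exact hX)
      (T '' A) (hA.image T) h0
    choose g hg hgs using hs
    refine ⟨g, hg, ?_⟩
    rw [tendsto_Cp]
    intro x
    have h1 := hlim x trivial
    have h2 := h1.add_const (f.1 x)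
    simp only [← hgs, T, sub_add_cancel, zero_add] at h2
    exact h2

open MeasureTheory in
theorem not_fSeparable_of_measure (X : Type u) [TopologicalSpace X] [MeasurableSpace X]
    (μ : Measure X) [IsProbabilityMeasure μ] (hm : ∀ f : X → ℝ, Continuous f → Measurable f)
    (hc : ∀ (x : X) (ε : ENNReal), 0 < ε → ∃ f : X → ℝ, Continuous f ∧ f x = 0 ∧
      μ {y | f y < 1} < ε) : ¬ FSeparable (Cp X) := by
  classical
  rintro ⟨D, _, hF⟩
  have hDseq : ∀ f : Cp X, ∃ e : ℕ → Cp X, (∀ i, e i ∈ D) ∧ Tendsto e atTop (𝓝 f) := by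
    intro f
    have hf : f ∈ FClosure D := by rw [hF]; trivial
    exact hf.2 D subset_rfl hf.1
  have hconv : ∀ (s : ℕ → Cp X) (f : Cp X), Tendsto s atTop (𝓝 f) →
      Tendsto (fun n => μ {x | (1 : ℝ) ≤ |(s n).1 x - f.1 x|}) atTop (𝓝 0) := by
    intro s f hs
    rw [tendsto_Cp] at hs
    have h1 : TendstoInMeasure μ (fun n => (s n).1) atTop f.1 :=
      tendstoInMeasure_of_tendsto_ae (fun n => (hm _ (s n).2).aestronglyMeasurable)
        (Eventually.of_forall hs)
    have h2 := h1 1 one_pos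
    refine h2.congr fun n => ?_
    congr 1
    ext x
    simp only [mem_ofPred_eq]
    rw [edist_dist, Real.dist_eq, ENNReal.one_le_ofReal]
  let A : Set (Cp X) := {g | g ∈ D ∧ (1 / 2 : ENNReal) ≤ μ {x | (1 : ℝ) ≤ |g.1 x|}}
  have h0 : zeroFn X ∈ closure A := by
    rw [mem_closure_Cp]
    intro F ε hε
    choose! f hf hfx hfμ using fun x : X => hc x (1 / 4 / ((F.card : ENNReal) + 1))
      (ENNReal.div_pos (by simp) (by simp))
    let h : Cp X := ⟨fun y => 2 * ∏ x ∈ F, min 1 (f x y),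
      continuous_const.mul (continuous_finsetProd _ fun x _ => continuous_const.min (hf x))⟩
    have hhx : ∀ x ∈ F, h.1 x = 0 := by
      intro x hx
      simp only [h]
      rw [Finset.prod_eq_zero hx (by rw [hfx x]; simp), mul_zero]
    have hbad : μ {y | h.1 y ≠ 2} ≤ 1 / 4 := by
      have hsub : {y | h.1 y ≠ 2} ⊆ ⋃ x ∈ F, {y | f x y < 1} := by
        intro y hy
        by_contra hno
        apply hy
        simp only [mem_iUnion, mem_ofPred_eq, exists_prop, not_exists, not_and, not_lt] at hno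
        simp only [h]
        rw [Finset.prod_eq_one (fun x hx => min_eq_left (hno x hx)), mul_one]
      refine (measure_mono hsub).trans ((measure_biUnion_finset_le _ _).trans ?_)
      refine (Finset.sum_le_sum fun x _ => (hfμ x).le).trans ?_
      rw [Finset.sum_const, nsmul_eq_mul]
      have h1 : (F.card : ENNReal) * (1 / 4 / ((F.card : ENNReal) + 1)) ≤
          ((F.card : ENNReal) + 1) * (1 / 4 / ((F.card : ENNReal) + 1)) := by
        gcongr
        exact le_self_add
      exact h1.trans (le_of_eq (ENNReal.mul_div_cancel (by simp) (by simp)))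
    obtain ⟨e, heD, he⟩ := hDseq h
    have h1 := hconv e h he
    have h2 : ∀ᶠ n in atTop, μ {x | (1 : ℝ) ≤ |(e n).1 x - h.1 x|} < 1 / 4 :=
      h1.eventually (gt_mem_nhds (by simp))
    have h3 : ∀ᶠ n in atTop, ∀ x ∈ F, |(e n).1 x| < ε := by
      rw [eventually_all_finset]
      intro x hx
      have h4 := (tendsto_Cp _ _).1 he x
      rw [hhx x hx] at h4
      filter_upwards [(Metric.tendsto_nhds.1 h4) ε hε] with n hn
      simpa [Real.dist_eq] using hn
    obtain ⟨n, hn2, hn3⟩ := (h2.and h3).exists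
    refine ⟨e n, ⟨heD n, ?_⟩, fun x hx => by simpa [zeroFn] using hn3 x hx⟩
    have hcover : (Set.univ : Set X) ⊆ {x | (1 : ℝ) ≤ |(e n).1 x|} ∪
        ({y | h.1 y ≠ 2} ∪ {x | (1 : ℝ) ≤ |(e n).1 x - h.1 x|}) := by
      intro x _
      by_cases hx2 : h.1 x = 2
      · by_cases hx3 : (1 : ℝ) ≤ |(e n).1 x - h.1 x|
        · right; right; exact hx3
        · left
          rw [not_le, hx2, abs_lt] at hx3
          change (1 : ℝ) ≤ |(e n).1 x|
          rw [le_abs]
          left
          linarith [hx3.1]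
      · right; left; exact hx2
    have h5 : (1 : ENNReal) ≤ μ {x | (1 : ℝ) ≤ |(e n).1 x|} + (1 / 4 + 1 / 4) := by
      have := measure_mono hcover (μ := μ)
      rw [measure_univ] at this
      refine this.trans ((measure_union_le _ _).trans ?_)
      gcongr
      refine (measure_union_le _ _).trans ?_
      gcongr
    have h6 : (1 / 4 + 1 / 4 : ENNReal) = 1 / 2 := by
      rw [ENNReal.div_add_div_same]
      rw [ENNReal.div_eq_div_iff] <;> norm_num
    rw [h6] at h5
    by_contra hlt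
    rw [not_le] at hlt
    have h7 := ENNReal.add_lt_add_right (a := (1 / 2 : ENNReal)) (by simp) hlt
    rw [ENNReal.add_halves] at h7
    exact absurd h7 (not_lt.2 h5)
  have hz0 : zeroFn X ∈ FClosure D := by rw [hF]; trivial
  obtain ⟨s, hsA, hs⟩ := hz0.2 A (fun g hg => hg.1) h0
  have h1 := hconv s _ hs
  have h2 : ∀ᶠ n in atTop, μ {x | (1 : ℝ) ≤ |(s n).1 x - (zeroFn X).1 x|} < 1 / 2 :=
    h1.eventually (gt_mem_nhds (by simp))
  obtain ⟨n, hn⟩ := h2.exists
  have h3 := (hsA n).2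
  simp only [zeroFn, sub_zero] at hn
  exact absurd hn (not_lt.2 h3)

/-- the Sorgenfrey line -/
structure Sorg where
  r : ℝ

instance : TopologicalSpace Sorg :=
  TopologicalSpace.generateFrom {s | ∃ a b : ℝ, s = {x : Sorg | a ≤ x.r ∧ x.r < b}}

theorem sorg_isOpen (a b : ℝ) : IsOpen {x : Sorg | a ≤ x.r ∧ x.r < b} :=
  TopologicalSpace.isOpen_generateFrom_of_mem ⟨a, b, rfl⟩

theorem sorg_right (f : Sorg → ℝ) (hf : Continuous f) (x : ℝ) :
    Tendsto (fun y : ℝ => f ⟨y⟩) (𝓝[≥] x) (𝓝 (f ⟨x⟩)) := by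
  have h1 : Tendsto f (𝓝 ⟨x⟩) (𝓝 (f ⟨x⟩)) := hf.tendsto ⟨x⟩
  refine h1.comp (f := fun y : ℝ => (⟨y⟩ : Sorg)) ?_
  rw [TopologicalSpace.nhds_generateFrom]
  refine tendsto_iInf.2 fun s => tendsto_iInf.2 fun hs => ?_
  obtain ⟨hxs, a, b, rfl⟩ := hs
  rw [tendsto_principal]
  have hxb : x < b := hxs.2
  have h2 : Ico x b ∈ 𝓝[≥] x := Ico_mem_nhdsGE hxb
  filter_upwards [h2] with y hy
  exact ⟨hxs.1.trans hy.1, hy.2⟩

theorem sorg_measurable (f : Sorg → ℝ) (hf : Continuous f) :
    Measurable (fun y : ℝ => f ⟨y⟩) := by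
  have hmeas : ∀ n : ℕ, Measurable (fun x : ℝ =>
      f ⟨(((⌊((n : ℝ) + 1) * x⌋ : ℤ) : ℝ) + 1) / ((n : ℝ) + 1)⟩) := by
    intro n
    have h1 : Measurable (fun x : ℝ => ⌊((n : ℝ) + 1) * x⌋) :=
      Int.measurable_floor.comp (measurable_const.mul measurable_id)
    have h2 : Measurable (fun k : ℤ => f ⟨(((k : ℤ) : ℝ) + 1) / ((n : ℝ) + 1)⟩) :=
      measurable_from_top
    exact h2.comp h1
  refine measurable_of_tendsto_metrizable hmeas ?_
  rw [tendsto_pi_nhds]
  intro x
  refine (sorg_right f hf x).comp ?_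
  rw [tendsto_nhdsWithin_iff]
  constructor
  · have h1 : Tendsto (fun n : ℕ => x + 1 / ((n : ℝ) + 1)) atTop (𝓝 x) := by
      have := tendsto_one_div_add_atTop_nhds_zero_nat (𝕜 := ℝ)
      simpa using this.const_add x
    refine tendsto_of_tendsto_of_tendsto_of_le_of_le tendsto_const_nhds h1 ?_ ?_
    · intro n
      simp only
      rw [le_div_iff₀ (by positivity)]
      have := Int.lt_floor_add_one (((n : ℝ) + 1) * x)
      linarith
    · intro n
      simp only
      rw [div_le_iff₀ (by positivity)]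
      have h2 := Int.floor_le (((n : ℝ) + 1) * x)
      have h3 : (x + 1 / ((n : ℝ) + 1)) * ((n : ℝ) + 1) = ((n : ℝ) + 1) * x + 1 := by
        field_simp
      rw [h3]
      linarith
  · refine Eventually.of_forall fun n => ?_
    rw [mem_Ici, le_div_iff₀ (by positivity)]
    have := Int.lt_floor_add_one (((n : ℝ) + 1) * x)
    linarith

theorem sorg_isClosed (a b : ℝ) : IsClosed {x : Sorg | a ≤ x.r ∧ x.r < b} := by
  constructor
  have h1 : ({x : Sorg | a ≤ x.r ∧ x.r < b})ᶜ = (⋃ n : ℕ, {x : Sorg | a - n ≤ x.r ∧ x.r < a}) ∪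
      (⋃ n : ℕ, {x : Sorg | b ≤ x.r ∧ x.r < b + n}) := by
    ext x
    simp only [mem_compl_iff, mem_ofPred_eq, mem_union, mem_iUnion, not_and, not_lt]
    constructor
    · intro h
      by_cases hx : a ≤ x.r
      · right
        obtain ⟨n, hn⟩ := exists_nat_gt (x.r - b)
        exact ⟨n, h hx, by linarith⟩
      · left
        obtain ⟨n, hn⟩ := exists_nat_gt (a - x.r)
        exact ⟨n, by linarith, not_le.1 hx⟩
    · rintro (⟨n, h1, h2⟩ | ⟨n, h1, h2⟩)
      · intro h; exact absurd h (not_le.2 h2)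
      · intro _; exact h1
  rw [h1]
  exact (isOpen_iUnion fun n => sorg_isOpen _ _).union (isOpen_iUnion fun n => sorg_isOpen _ _)

open MeasureTheory in
theorem sorg_not_fSeparable : ¬ FSeparable (Cp Sorg) := by
  classical
  let _ : MeasurableSpace Sorg := MeasurableSpace.comap Sorg.r inferInstance
  have hmk : Measurable Sorg.mk := by
    rw [measurable_comap_iff]
    exact measurable_id
  let μ : Measure Sorg := (volume.restrict (Icc (0 : ℝ) 1)).map Sorg.mk
  have : IsProbabilityMeasure μ := ⟨by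
    rw [Measure.map_apply hmk MeasurableSet.univ]
    simp⟩
  have hfm : ∀ f : Sorg → ℝ, Continuous f → Measurable f := fun f hf =>
    (sorg_measurable f hf).comp (comap_measurable Sorg.r)
  refine not_fSeparable_of_measure Sorg μ hfm ?_
  intro x ε hε
  obtain ⟨δ, hδ, hδε⟩ : ∃ δ : ℝ, 0 < δ ∧ ENNReal.ofReal δ < ε := by
    obtain ⟨δ, hδ, hlt⟩ := ENNReal.lt_iff_exists_nnreal_btwn.1 hε
    refine ⟨δ, by exact_mod_cast hδ, by simpa using hlt⟩
  let U : Set Sorg := {y : Sorg | x.r ≤ y.r ∧ y.r < x.r + δ}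
  have hU : IsClopen U := ⟨sorg_isClosed _ _, sorg_isOpen _ _⟩
  have hcont : Continuous (Uᶜ.indicator (fun _ => (1 : ℝ))) := by
    have h := (LocallyConstant.charFn ℝ hU.compl).continuous
    rw [LocallyConstant.coe_charFn] at h
    exact h
  refine ⟨Uᶜ.indicator (fun _ => (1 : ℝ)), hcont, ?_, ?_⟩
  · rw [indicator_of_notMem]
    intro h
    exact h ⟨le_refl _, lt_add_of_pos_right _ hδ⟩
  · have hsub : {y | Uᶜ.indicator (fun _ => (1 : ℝ)) y < 1} ⊆ U := by
      intro y hy
      by_contra hn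
      have h1 : Uᶜ.indicator (fun _ => (1 : ℝ)) y = 1 := indicator_of_mem hn _
      change Uᶜ.indicator (fun _ => (1 : ℝ)) y < 1 at hy
      rw [h1] at hy
      exact lt_irrefl _ hy
    refine (measure_mono hsub).trans_lt ?_
    refine lt_of_le_of_lt ?_ hδε
    have hUm : MeasurableSet U :=
      ⟨Ico x.r (x.r + δ), measurableSet_Ico, rfl⟩
    rw [Measure.map_apply hmk hUm]
    refine (Measure.restrict_apply_le _ _).trans ?_
    have h2 : Sorg.mk ⁻¹' U = Ico x.r (x.r + δ) := rfl
    rw [h2, Real.volume_Ico]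
    simp

end Pool.Agent.LibFsep
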